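import Mathlib
import Pool.Agent.R984.AvgTree

/-!
# MP_9aa425_pr, Q1: `t_{ε,1}(G) = Θ_ε(max{γ(G), n log n})` is false for every `ε ∈ (0,1)`.

For every even `n ≥ 4096` there is a connected graph on `n` vertices (a binary tree whose last
`n/2` vertices form a clique) with `γ(G) ≤ 6 |E|` but `t_{ε,1}(G) ≥ (1/2) |E| log n` for every
`ε < 1`.  So the `log n` factor in the general upper bound `4 γ (log √n + log 1/ε)` is needed even
when `γ` is much larger than `n log n`.
-/

open scoped ENNReal BigOperators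
open R984.AvgProc

namespace Pool.Agent.Results.MP_9aa425_pr.LogFactorSharp

/-- The two-sided bound of Q1 for one `ε`: there are `0 < c ≤ C` with
`c max{γ, n log n} ≤ t_{ε,1}(G) ≤ C max{γ, n log n}` for all connected `G` with `n ≥ 2`
vertices. -/
def ThetaBound (ε : ℝ) : Prop :=
  ∃ c C : ℝ, 0 < c ∧ c ≤ C ∧ ∀ (V : Type) [Fintype V] (G : SimpleGraph V)
    (hV : 2 ≤ Fintype.card V), G.Connected →
    ENNReal.ofReal (c * max (gam G hV) (Fintype.card V * Real.log (Fintype.card V)))
      ≤ (mixTime G ε : ℝ≥0∞) ∧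
    (mixTime G ε : ℝ≥0∞) ≤
      ENNReal.ofReal (C * max (gam G hV) (Fintype.card V * Real.log (Fintype.card V)))

/-- Lower bound for the `L¹` distance of one probability vector. -/
lemma l1_lower (M K : ℕ) (hM : 1 ≤ M) (hK : K ≤ M) (s : Fin (2 * M) → ℝ) (hs : ∀ x, 0 ≤ s x)
    (hs1 : ∑ x, s x = 1) :
    2 - 2 * (K : ℝ) / (2 * M) - 2 / ((K : ℝ) + 1) * ∑ x, pot M x * s x ≤
      ∑ x, |s x - 1 / ((2 * M : ℕ) : ℝ)| := by
  set I : ℕ → ℝ := fun x => if K ≤ x then 1 else 0 with hI
  have hMpos : (0:ℝ) < M := by exact_mod_cast hM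
  have hIs : ∑ x : Fin (2 * M), I x = 2 * M - K := by
    rw [← Finset.sum_range (f := I)]
    have h1 : 2 * M = K + (2 * M - K) := by omega
    rw [h1, Finset.sum_range_add]
    have h2 : ∑ x ∈ Finset.range K, I x = 0 := by
      refine Finset.sum_eq_zero (fun i hi => ?_)
      rw [Finset.mem_range] at hi
      simp only [hI]
      rw [if_neg (by omega)]
    have h3 : ∀ x ∈ Finset.range (2 * M - K), I (K + x) = 1 := by
      intro x _
      simp only [hI]
      rw [if_pos (by omega)]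
    rw [h2, Finset.sum_congr rfl h3, Finset.sum_const, Finset.card_range, nsmul_eq_mul,
      Nat.cast_sub (by omega)]
    push_cast; ring
  have hterm : ∀ x : Fin (2 * M), (s x - 1 / ((2 * M : ℕ) : ℝ)) + 2 * (I x / (2 * M))
      - 2 / ((K : ℝ) + 1) * (pot M x * s x) ≤ |s x - 1 / ((2 * M : ℕ) : ℝ)| := by
    intro x
    have hp0 : 0 ≤ pot M x := by unfold pot; positivity
    by_cases hx : K ≤ x.val
    · have h1 : (K : ℝ) + 1 ≤ pot M x := by
        unfold pot
        have : K + 1 ≤ min x.val M + 1 := by omega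
        exact_mod_cast this
      have h2 : 2 * s x ≤ 2 / ((K : ℝ) + 1) * (pot M x * s x) := by
        have h3 : 2 / ((K : ℝ) + 1) * (pot M x * s x) = 2 * s x * (pot M x / ((K : ℝ) + 1)) := by
          field_simp
        rw [h3]
        have h4 : 1 ≤ pot M x / ((K : ℝ) + 1) := by
          rw [le_div_iff₀ (by positivity)]; linarith
        have h5 : 0 ≤ 2 * s x := by have := hs x; linarith
        nlinarith
      have h3 := neg_abs_le (s x - 1 / ((2 * M : ℕ) : ℝ))
      simp only [hI]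
      rw [if_pos hx]
      have h4 : 1 / ((2 * M : ℕ) : ℝ) = 1 / (2 * M) := by push_cast; ring
      rw [h4] at h3 ⊢
      linarith
    · simp only [hI]
      rw [if_neg hx, zero_div, mul_zero]
      have h2 : 0 ≤ 2 / ((K : ℝ) + 1) * (pot M x * s x) := by
        have := hs x
        positivity
      have h3 := le_abs_self (s x - 1 / ((2 * M : ℕ) : ℝ))
      linarith
  have hsum := Finset.sum_le_sum (s := Finset.univ) (fun x _ => hterm x)
  have hdiv : ∑ x : Fin (2 * M), I x / (2 * M) = (2 * M - K) / (2 * M) := by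
    rw [← Finset.sum_div, hIs]
  rw [Finset.sum_sub_distrib, Finset.sum_add_distrib, Finset.sum_sub_distrib, hs1,
    ← Finset.mul_sum, ← Finset.mul_sum, hdiv, Finset.sum_const,
    Finset.card_univ, Fintype.card_fin, nsmul_eq_mul] at hsum
  refine le_trans (le_of_eq ?_) hsum
  push_cast
  field_simp
  ring

open Classical in
/-- The lower bound for the mixing time. -/
lemma mixing_lower (M : ℕ) (hM : 2 ≤ M) (ε : ℝ) (hε : ε < 1) (t : ℕ)
    (ht : ∀ v₀ : Fin (2 * M) → ℝ, ∑ x, |v₀ x| = 1 → expL1 (TC M) v₀ t ≤ ε) :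
    (Fintype.card (TC M).edgeSet : ℝ) * Real.log (M / 32) ≤ t := by
  have hM1 : 1 ≤ M := by omega
  have hMpos : (0:ℝ) < M := by exact_mod_cast hM1
  have hM2 : (2:ℝ) ≤ M := by exact_mod_cast hM
  set E : ℝ := (Fintype.card (TC M).edgeSet : ℝ) with hE
  have hEpos : 0 < E := by
    have := TC_card_edges M
    rw [← hE] at this
    have h1 : (0:ℝ) < (M : ℝ) * (M - 1) / 2 := by
      have : (0:ℝ) < M - 1 := by linarith
      positivity
    linarith
  have h0 : 0 < 2 * M := by omega
  set z : Fin (2 * M) := ⟨0, h0⟩ with hz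
  set v₀ : Fin (2 * M) → ℝ := Pi.single z 1 with hv₀
  have hv₀nn : ∀ x, 0 ≤ v₀ x := by
    intro x
    by_cases h : x = z
    · subst h; simp [hv₀]
    · simp [hv₀, Pi.single_eq_of_ne h]
  have hv₀sum : ∑ x, v₀ x = 1 := by simp [hv₀]
  have hv₀abs : ∑ x, |v₀ x| = 1 := by
    rw [← hv₀sum]
    exact Finset.sum_congr rfl (fun x _ => abs_of_nonneg (hv₀nn x))
  have h1 := ht v₀ hv₀abs
  have hpot := potential_bound (TC M) (pot M) 1 zero_le_one (pot_drift M) v₀ hv₀nn t
  have hpot0 : ∑ x, pot M x * v₀ x = 1 := by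
    rw [Finset.sum_eq_single z]
    · simp [hv₀, pot, hz]
    · intro b _ hb
      simp [hv₀, Pi.single_eq_of_ne hb]
    · intro h; exact absurd (Finset.mem_univ _) h
  rw [hpot0, mul_one, ← hE] at hpot
  set K : ℕ := M / 4 with hK
  have hK1 : (K : ℝ) ≤ M / 4 := by
    have : 4 * K ≤ M := by omega
    have : (4:ℝ) * K ≤ M := by exact_mod_cast this
    linarith
  have hK2 : (M : ℝ) / 4 ≤ K + 1 := by
    have : M ≤ 4 * (K + 1) := by omega
    have : (M:ℝ) ≤ 4 * (K + 1) := by exact_mod_cast this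
    linarith
  -- lower bound for the numerator
  have hlow : ∀ a : Fin t → (TC M).edgeSet,
      2 - 2 * (K : ℝ) / (2 * M) - 2 / ((K : ℝ) + 1) *
        ∑ x, pot M x * stateAt v₀ t (fun i => (a i : Sym2 (Fin (2 * M)))) x ≤
      ∑ x, |stateAt v₀ t (fun i => (a i : Sym2 (Fin (2 * M)))) x -
        (∑ y, v₀ y) / Fintype.card (Fin (2 * M))| := by
    intro a
    rw [hv₀sum, Fintype.card_fin]
    exact l1_lower M K hM1 (by omega) _ (stateAt_nonneg v₀ hv₀nn t _)
      (by rw [sum_stateAt (TC M) v₀ t a, hv₀sum])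
  have hsum := Finset.sum_le_sum (s := Finset.univ) (fun a _ => hlow a)
  rw [Finset.sum_sub_distrib, ← Finset.mul_sum, Finset.sum_const, Finset.card_univ,
    nsmul_eq_mul] at hsum
  have hcard : (Fintype.card (Fin t → (TC M).edgeSet) : ℝ) = E ^ t := by
    rw [Fintype.card_fun, Fintype.card_fin, hE]
    push_cast; rfl
  rw [hcard] at hsum
  unfold expL1 at h1
  rw [← hE, div_le_iff₀ (by positivity)] at h1
  have h2 := hsum.trans h1
  have hEt : 0 < E ^ t := by positivity
  have h3 : 2 / ((K : ℝ) + 1) * ∑ a : Fin t → (TC M).edgeSet,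
      ∑ x, pot M x * stateAt v₀ t (fun i => (a i : Sym2 (Fin (2 * M)))) x ≤
      2 / ((K : ℝ) + 1) * (E + 1) ^ t := mul_le_mul_of_nonneg_left hpot (by positivity)
  have h4 : 2 * (K : ℝ) / (2 * M) ≤ 1 / 4 := by
    rw [div_le_div_iff₀ (by positivity) (by norm_num)]
    linarith
  have h5 : E ^ t * (3 / 4) ≤ 2 / ((K : ℝ) + 1) * (E + 1) ^ t := by
    nlinarith
  have h6 : (E + 1) ^ t ≤ E ^ t * Real.exp (t / E) := by
    have h7 : (E + 1) = E * (1 + 1 / E) := by field_simp
    rw [h7, mul_pow]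
    refine mul_le_mul_of_nonneg_left ?_ hEt.le
    have h8 : 1 + 1 / E ≤ Real.exp (1 / E) := by
      have := Real.add_one_le_exp (1 / E); linarith
    calc (1 + 1 / E) ^ t ≤ (Real.exp (1 / E)) ^ t :=
          pow_le_pow_left₀ (by positivity) h8 t
      _ = Real.exp (t / E) := by rw [← Real.exp_nat_mul]; congr 1; ring
  have h7 : (3 / 4 : ℝ) * ((K : ℝ) + 1) ≤ 2 * Real.exp (t / E) := by
    have h8 : 2 / ((K : ℝ) + 1) * (E + 1) ^ t ≤ 2 / ((K : ℝ) + 1) * (E ^ t * Real.exp (t / E)) :=
      mul_le_mul_of_nonneg_left h6 (by positivity)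
    have h9 : E ^ t * (3 / 4) ≤ E ^ t * (2 / ((K : ℝ) + 1) * Real.exp (t / E)) := by linarith
    have h10 := le_of_mul_le_mul_left h9 hEt
    have h11 : (0:ℝ) < (K : ℝ) + 1 := by positivity
    calc (3 / 4 : ℝ) * ((K : ℝ) + 1) ≤ (2 / ((K : ℝ) + 1) * Real.exp (t / E)) * ((K : ℝ) + 1) :=
          mul_le_mul_of_nonneg_right h10 h11.le
      _ = 2 * Real.exp (t / E) := by field_simp
  have h8 : (M : ℝ) / 32 ≤ Real.exp (t / E) := by linarith
  have h9 : Real.log (M / 32) ≤ t / E := by
    rw [Real.log_le_iff_le_exp (by positivity)]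
    exact h8
  rw [le_div_iff₀ hEpos] at h9
  linarith

/-- **Disproof of Q1 for every `ε ∈ (0,1)`, with the sharp factor `log n`.** -/
theorem result :
    (∀ ε : ℝ, 0 < ε → ε < 1 → ¬ ThetaBound ε) ∧
    ∀ n : ℕ, Even n → 4096 ≤ n → ∃ (G : SimpleGraph (Fin n)) (hn : 2 ≤ Fintype.card (Fin n)),
      G.Connected ∧ ∀ ε : ℝ, ε < 1 →
        ENNReal.ofReal ((1 / 12) * Real.log n * max (gam G hn) (n * Real.log n))
          ≤ (mixTime G ε : ℝ≥0∞) := by
  classical
  have main : ∀ n : ℕ, Even n → 4096 ≤ n →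
      ∃ (G : SimpleGraph (Fin n)) (hn : 2 ≤ Fintype.card (Fin n)),
      G.Connected ∧ ∀ ε : ℝ, ε < 1 →
        ENNReal.ofReal ((1 / 12) * Real.log n * max (gam G hn) (n * Real.log n))
          ≤ (mixTime G ε : ℝ≥0∞) := by
    intro n hev hn
    obtain ⟨M, hMn⟩ := hev
    have hMn' : n = 2 * M := by omega
    subst hMn'
    have hM : 2048 ≤ M := by omega
    have hV : 2 ≤ Fintype.card (Fin (2 * M)) := by rw [Fintype.card_fin]; omega
    refine ⟨TC M, hV, TC_connected M (by omega), fun ε hε => ?_⟩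
    have hMr : (2048:ℝ) ≤ M := by exact_mod_cast hM
    set E : ℝ := (Fintype.card (TC M).edgeSet : ℝ) with hE
    have hE1 : (M : ℝ) * (M - 1) / 2 ≤ E := TC_card_edges M
    have hE0 : 0 < E := by nlinarith
    have hlam : (1 / 6 : ℝ) ≤ lambda2 (TC M) hV :=
      le_lambda2 (TC M) hV (1 / 6) (by norm_num) (gap M (by omega))
    have hgam : gam (TC M) hV ≤ 6 * E := by
      unfold gam
      rw [← hE, div_le_iff₀ (by linarith)]
      nlinarith
    have hncast : ((2 * M : ℕ) : ℝ) = 2 * M := by push_cast; ring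
    rw [hncast]
    have hlogM : Real.log (2 * M) ≤ 2 * M / 2 := by
      have h1 : Real.log (2 * M) = Real.log M + Real.log 2 := by
        rw [Real.log_mul (by norm_num) (by positivity)]; ring
      have h2 : Real.log M ≤ M - 1 := Real.log_le_sub_one_of_pos (by positivity)
      have h3 : Real.log 2 ≤ 1 := by
        have := Real.log_le_sub_one_of_pos (show (0:ℝ) < 2 by norm_num); linarith
      rw [h1]; linarith
    have hlog0 : 0 ≤ Real.log (2 * M) := Real.log_nonneg (by linarith)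
    have hnlog : 2 * M * Real.log (2 * M) ≤ 6 * E := by nlinarith
    have hmax : max (gam (TC M) hV) (2 * M * Real.log (2 * M)) ≤ 6 * E := max_le hgam hnlog
    have hlog : (1 / 2) * Real.log (2 * M) ≤ Real.log (M / 32) := by
      have h1 : Real.log ((2 * (M:ℝ)) ^ 2 * (1 / 4096)) = 2 * Real.log (M / 32) := by
        rw [← Real.log_rpow (by positivity)]
        congr 1
        norm_num
        ring
      have h2 : Real.log (2 * M) ≤ Real.log ((2 * (M:ℝ)) ^ 2 * (1 / 4096)) := by
        apply Real.log_le_log (by positivity)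
        nlinarith
      linarith
    have hceil : ((⌈(1 / 12) * Real.log (2 * M) *
        max (gam (TC M) hV) (2 * M * Real.log (2 * M))⌉₊ : ℕ) : ℕ∞) ≤ mixTime (TC M) ε := by
      unfold mixTime
      refine le_iInf₂ (fun t ht => ?_)
      have hlow := mixing_lower M (by omega) ε hε t ht
      rw [← hE] at hlow
      rw [Nat.cast_le, Nat.ceil_le]
      calc (1 / 12) * Real.log (2 * M) * max (gam (TC M) hV) (2 * M * Real.log (2 * M))
          ≤ (1 / 12) * Real.log (2 * M) * (6 * E) :=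
            mul_le_mul_of_nonneg_left hmax (by positivity)
        _ = E * ((1 / 2) * Real.log (2 * M)) := by ring
        _ ≤ E * Real.log (M / 32) := mul_le_mul_of_nonneg_left hlog hE0.le
        _ ≤ t := hlow
    refine le_trans ?_ (ENat.toENNReal_le.mpr hceil)
    rw [ENat.toENNReal_coe]
    exact ENNReal.ofReal_le_of_le_toReal (by
      rw [ENNReal.toReal_natCast]; exact Nat.le_ceil _)
  refine ⟨?_, main⟩
  rintro ε hε0 hε1 ⟨c, C, hc, hcC, hall⟩
  -- choose n with log n / 12 > C
  obtain ⟨k, hk⟩ := exists_nat_ge (Real.exp (12 * C + 12))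
  obtain ⟨n, hn⟩ : ∃ n : ℕ, n = 2 * (k + 2048) := ⟨_, rfl⟩
  have hev : Even n := by rw [hn]; exact even_two_mul _
  have hn4 : 4096 ≤ n := by omega
  obtain ⟨G, hV, hconn, hG⟩ := main n hev hn4
  have h1 := (hG ε hε1).trans (hall (Fin n) G hV hconn).2
  rw [Fintype.card_fin] at h1
  have hnpos : (0:ℝ) < n := by
    have : 0 < n := by omega
    exact_mod_cast this
  have hnk : (k:ℝ) ≤ n := by
    have : k ≤ n := by omega
    exact_mod_cast this
  have hlogn : 12 * C + 12 ≤ Real.log n := by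
    rw [Real.le_log_iff_exp_le hnpos]
    linarith
  have hC0 : 0 < C := by linarith
  have hlogpos : 0 < Real.log n := by linarith
  set m := max (gam G hV) (n * Real.log n) with hm
  have hmpos : 0 < m := lt_of_lt_of_le (by positivity) (le_max_right _ _)
  rw [ENNReal.ofReal_le_ofReal_iff (by positivity)] at h1
  have h2 := le_of_mul_le_mul_right h1 hmpos
  linarith

end Pool.Agent.Results.MP_9aa425_pr.LogFactorSharp
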